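import Pool.Agent.H590R3.RC8

set_option autoImplicit false

namespace Pool.Agent.Results.MP_64e6b8_an.NumericalIndexRealCStar

open Filter Topology
open Pool.Agent.H590R3.RC

/-- `A` is a real C*-algebra: a norm-closed real subspace of a complex C*-algebra `B`
(unital or not), closed under multiplication and under the involution. It carries the norm
inherited from `B`. -/
structure IsRealCStarAlgebra {B : Type*} [NonUnitalCStarAlgebra B] (A : Submodule ℝ B) : Prop where
  isClosed : IsClosed (A : Set B)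
  mul_mem : ∀ a ∈ A, ∀ b ∈ A, a * b ∈ A
  star_mem : ∀ a ∈ A, star a ∈ A

/-- the inclusion in the unitization -/
noncomputable def incl {B : Type*} [NonUnitalCStarAlgebra B] (A : Submodule ℝ B) :
    A →ₗᵢ[ℝ] Unitization ℂ B where
  toFun a := ((a : B) : Unitization ℂ B)
  map_add' a b := Unitization.inr_add ℂ _ _
  map_smul' c a := by
    change (((c • (a : B)) : B) : Unitization ℂ B) = c • (((a : B)) : Unitization ℂ B)
    exact Unitization.inr_smul ℂ c (a : B)
  norm_map' a := (Unitization.isometry_inr (𝕜 := ℂ) (A := B)).norm_map_of_map_zero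
    (Unitization.inr_zero ℂ) (a : B)

theorem result.{u, v} (B : Type u) [NonUnitalCStarAlgebra B] (A : Submodule ℝ B)
    (hA : IsRealCStarAlgebra A) (hne : A ≠ ⊥) :
    ((∀ a ∈ A, star a = a) →
      numIndex A = 1 ∧
      ∀ (X : Type v) [NormedAddCommGroup X] [NormedSpace ℝ X] [CompleteSpace X]
        (_ : A ≃ₗᵢ[ℝ] (X →L[ℝ] ℝ)), numIndex X = 1) ∧
    ((∃ a ∈ A, star a ≠ a) →
      numIndex A = 0 ∧
      ∀ (X : Type v) [NormedAddCommGroup X] [NormedSpace ℝ X] [CompleteSpace X]
        (_ : A ≃ₗᵢ[ℝ] (X →L[ℝ] ℝ)), numIndex X = 0) := by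
  have hnt : Nontrivial A := (Submodule.nontrivial_iff_ne_bot).2 hne
  have hcomp : CompleteSpace A := hA.isClosed.completeSpace_coe
  constructor
  · intro hsa
    have h1 : ∀ T : A →L[ℝ] A, ‖T‖ ≤ numRadius T := fun T =>
      index_one A.subtypeₗᵢ (fun e => hsa e e.2)
        (fun a b => ⟨⟨(a : B) * (b : B), hA.mul_mem _ a.2 _ b.2⟩, rfl⟩) T
    exact ⟨numIndex_eq_one h1, fun X _ _ _ Φ => index_one_predual h1 Φ⟩
  · intro hsk
    let _ : PartialOrder (Unitization ℂ B) := CStarAlgebra.spectralOrder _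
    have _ : StarOrderedRing (Unitization ℂ B) := CStarAlgebra.spectralOrderedRing _
    have hS : IsRCS (rng (incl A)) := by
      refine ⟨?_, ?_, ?_⟩
      · exact (incl A).isometry.isClosedEmbedding.isClosed_range
      · rintro _ ⟨a, rfl⟩ _ ⟨b, rfl⟩
        refine ⟨⟨(a : B) * (b : B), hA.mul_mem _ a.2 _ b.2⟩, ?_⟩
        exact Unitization.inr_mul ℂ (a : B) (b : B)
      · rintro _ ⟨a, rfl⟩
        refine ⟨⟨star (a : B), hA.star_mem _ a.2⟩, ?_⟩
        exact Unitization.inr_star (R := ℂ) (a : B)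
    refine index_zero.{u, v, u} (incl A) hS ?_
    obtain ⟨a, ha, hane⟩ := hsk
    refine ⟨incl A ⟨a, ha⟩, mem_rng _ _, fun h => hane ?_⟩
    have h1 : ((star a : B) : Unitization ℂ B) = ((a : B) : Unitization ℂ B) := by
      rw [Unitization.inr_star]
      exact h
    exact Unitization.inr_injective h1

end Pool.Agent.Results.MP_64e6b8_an.NumericalIndexRealCStar
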